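import Pool.Agent.Helper16.HR.Main
import Pool.Agent.Helper73.HX.SC2

/-! # Simultaneous reflection at strongly compact and at extendible cardinals -/

set_option autoImplicit false

namespace Pool.Agent.Helper73.HR

open Ordinal Cardinal ZFSet Order Pool.Agent Pool.Agent.Helper73.HODC Pool.Agent.Helper73.HM
open Pool.Agent.Helper73.HU Pool.Agent.Helper73.HX Pool.Agent.Helper16.HR

theorem simRefl_of_sc {χ κ : Cardinal.{0}} (hκ : StronglyCompact κ) (hχ : χ < κ) :
    SimRefl χ κ := by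
  have hRefl : StRefl := refl_of Helper32.HM.ra Helper38.HM.rc Helper11.HM.RS.rs
  have hRF : StRF := Helper68.HU.rf hRefl Helper68.HU.nmap Helper68.HU.tr
  intro c hc hκc ι hι A hA hcof
  have hcc : ℵ₀ < c.ord.cof := by rw [hc.cof_ord]; exact hκ.unc.trans_le hκc
  obtain ⟨σ, ⟨h1, h2, h3⟩, -, h4⟩ := hRF κ c.ord hκ (by rw [hc.cof_ord]; exact hκc) ι
    (hι.trans_lt hχ) A hA (fun i a ha => by rw [hcof i a ha]; exact hκ.unc) _
    (club_univ (isSuccLimit_of_cof hcc))
  exact ⟨σ, h4, h1, h2, h3⟩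

theorem simRefl_of_ext {χ κ : Cardinal.{0}} (hκ : Extendible κ) (hχ : χ < κ) :
    SimRefl χ κ := simRefl_of_sc hκ.stronglyCompact hχ

end Pool.Agent.Helper73.HR
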